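import Pool.Agent.Helper27.LX.St

/-!
# Project LX (MP_d57c14_nt), module PRX: the primes `q` such that `q ^ 2 + q + 1` has no prime factor `l ≡ 1 (3)` in `(log x, z]`
-/

set_option autoImplicit false

noncomputable section

namespace Pool.Agent.Helper45.LX

open Finset Filter
open Pool.Agent.Helper27.LX
open Pool.Agent.Helper30.LK (StSVU StMR3)
open Pool.Agent.Helper15.AB (StMT)

open Classical in
/-- the residue classes modulo `l` which are removed -/
private def SS (A : ℝ) (x l : ℕ) : Finset ℕ :=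
  (range l).filter (fun s => s = 0 ∨ (In A x l ∧ l ∣ s ^ 2 + s + 1))

private theorem dvd_iff (l s : ℕ) : l ∣ s ^ 2 + s + 1 ↔ ((s : ZMod l) ^ 2 + s + 1 = 0) := by
  rw [← ZMod.natCast_eq_zero_iff]
  push_cast
  exact Iff.rfl

private theorem SS_card_le (A : ℝ) (x l : ℕ) (hl : l.Prime) : (SS A x l).card ≤ 3 := by
  classical
  have : Fact l.Prime := ⟨hl⟩
  have hinj : Set.InjOn (fun s : ℕ => (s : ZMod l)) (range l) := by
    intro a ha b hb hab
    have h1 := (ZMod.natCast_eq_natCast_iff' a b l).1 hab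
    rw [Nat.mod_eq_of_lt (mem_range.1 ha), Nat.mod_eq_of_lt (mem_range.1 hb)] at h1
    exact h1
  set R := (range l).filter (fun s => l ∣ s ^ 2 + s + 1) with hR
  have h1 : SS A x l ⊆ insert 0 R := by
    intro s hs
    rw [SS, mem_filter] at hs
    rw [mem_insert]
    rcases hs.2 with h | h
    · exact Or.inl h
    · exact Or.inr (mem_filter.2 ⟨hs.1, h.2⟩)
  have h2 : R.card ≤ 2 := by
    rcases R.eq_empty_or_nonempty with h | ⟨r, hr⟩
    · simp [h]
    · have h3 : R.image (fun s : ℕ => (s : ZMod l)) ⊆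
          ({(r : ZMod l), -1 - (r : ZMod l)} : Finset (ZMod l)) := by
        intro t ht
        obtain ⟨s, hs, rfl⟩ := mem_image.1 ht
        have e1 := (dvd_iff l s).1 (mem_filter.1 hs).2
        have e2 := (dvd_iff l r).1 (mem_filter.1 hr).2
        have e3 : ((s : ZMod l) - r) * (s + r + 1) = 0 := by linear_combination e1 - e2
        rw [mem_insert, mem_singleton]
        rcases mul_eq_zero.1 e3 with h | h
        · left
          linear_combination h
        · right
          linear_combination h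
      rw [← card_image_of_injOn (hinj.mono (by
        intro s hs
        exact (mem_filter.1 hs).1))]
      exact (card_le_card h3).trans card_le_two
  calc (SS A x l).card ≤ (insert 0 R).card := card_le_card h1
    _ ≤ R.card + 1 := card_insert_le _ _
    _ ≤ 3 := by omega

private theorem SS_one (A : ℝ) (x l : ℕ) (hl : l.Prime) : 1 ≤ (SS A x l).card := by
  classical
  rw [Nat.one_le_iff_ne_zero, card_ne_zero]
  exact ⟨0, mem_filter.2 ⟨mem_range.2 hl.pos, Or.inl rfl⟩⟩

private theorem SS_three (A : ℝ) (x l : ℕ) (hl : l.Prime) (h3 : In A x l) : 3 ≤ (SS A x l).card := by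
  classical
  have : Fact l.Prime := ⟨hl⟩
  have : Fact (Nat.Prime 3) := ⟨Nat.prime_three⟩
  have hd : 3 ∣ Fintype.card (ZMod l)ˣ := by
    rw [ZMod.card_units]
    have := hl.one_lt
    have := h3.1
    omega
  obtain ⟨v, hv⟩ := exists_prime_orderOf_dvd_card 3 hd
  have hv3 : (v : ZMod l) ^ 3 = 1 := by
    have h1 : v ^ 3 = 1 := by rw [← hv]; exact pow_orderOf_eq_one v
    have h2 := congrArg (fun w : (ZMod l)ˣ => (w : ZMod l)) h1
    simpa using h2
  have hv1 : (v : ZMod l) ≠ 1 := by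
    intro h
    have h1 : v = 1 := Units.ext h
    rw [h1, orderOf_one] at hv
    omega
  set u : ZMod l := (v : ZMod l) with hu
  have hq : u ^ 2 + u + 1 = 0 := by
    have h1 : (u - 1) * (u ^ 2 + u + 1) = 0 := by linear_combination hv3
    rcases mul_eq_zero.1 h1 with h | h
    · exact absurd (sub_eq_zero.1 h) hv1
    · exact h
  have hu0 : u ≠ 0 := v.ne_zero
  have hq2 : (u ^ 2) ^ 2 + u ^ 2 + 1 = 0 := by linear_combination (u ^ 2 - u + 1) * hq
  have hne : u ≠ u ^ 2 := by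
    intro h
    have h1 : u * (u - 1) = 0 := by linear_combination -h
    rcases mul_eq_zero.1 h1 with h | h
    · exact hu0 h
    · exact hv1 (sub_eq_zero.1 h)
  have mem : ∀ w : ZMod l, w ^ 2 + w + 1 = 0 → w.val ∈ SS A x l := by
    intro w hw
    refine mem_filter.2 ⟨mem_range.2 (ZMod.val_lt w), Or.inr ⟨h3, ?_⟩⟩
    rw [dvd_iff, ZMod.natCast_zmod_val]
    exact hw
  have hsub : ({0, u.val, (u ^ 2).val} : Finset ℕ) ⊆ SS A x l := by
    intro s hs
    rw [mem_insert, mem_insert, mem_singleton] at hs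
    rcases hs with rfl | rfl | rfl
    · exact mem_filter.2 ⟨mem_range.2 hl.pos, Or.inl rfl⟩
    · exact mem u hq
    · exact mem (u ^ 2) hq2
  have hcard : ({0, u.val, (u ^ 2).val} : Finset ℕ).card = 3 := by
    rw [card_eq_three]
    refine ⟨0, u.val, (u ^ 2).val, ?_, ?_, ?_, rfl⟩
    · intro h
      exact hu0 ((ZMod.val_eq_zero u).1 h.symm)
    · intro h
      exact pow_ne_zero 2 hu0 ((ZMod.val_eq_zero (u ^ 2)).1 h.symm)
    · intro h
      exact hne (ZMod.val_injective l h)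
  rw [← hcard]
  exact card_le_card hsub

/-- the lower bound for the sum -/
private theorem sum_ge (A : ℝ) (x N : ℕ) (hN : ⌊Real.exp (lz A x)⌋₊ ≤ N) :
    ∑ l ∈ (Icc 1 N).filter Nat.Prime, (1 : ℝ) / l +
      2 * (∑ l ∈ (Icc 1 ⌊Real.exp (lz A x)⌋₊).filter (fun l => l.Prime ∧ l % 3 = 1), (1 : ℝ) / l -
        ∑ l ∈ (Icc 1 ⌊Real.log x⌋₊).filter (fun l => l.Prime ∧ l % 3 = 1), (1 : ℝ) / l) - 2 ≤
    ∑ l ∈ (Icc 7 N).filter Nat.Prime, ((SS A x l).card : ℝ) / l := by
  classical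
  have a1 : ∑ l ∈ (Icc 1 N).filter Nat.Prime, (1 : ℝ) / l ≤
      ∑ l ∈ (Icc 7 N).filter Nat.Prime, (1 : ℝ) / l + 2 := by
    have hsub : (Icc 1 N).filter Nat.Prime ⊆ (Icc 7 N).filter Nat.Prime ∪ {2, 3, 5} := by
      intro l hl
      obtain ⟨h1, h2⟩ := mem_filter.1 hl
      rw [mem_Icc] at h1
      rw [mem_union, mem_filter, mem_Icc]
      rcases Nat.lt_or_ge l 7 with h7 | h7
      · right
        obtain ⟨h1, -⟩ := h1
        interval_cases l <;> first | (simp; done) | exact absurd h2 (by norm_num)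
      · exact Or.inl ⟨⟨h7, h1.2⟩, h2⟩
    calc ∑ l ∈ (Icc 1 N).filter Nat.Prime, (1 : ℝ) / l
        ≤ ∑ l ∈ (Icc 7 N).filter Nat.Prime ∪ {2, 3, 5}, (1 : ℝ) / l :=
          sum_le_sum_of_subset_of_nonneg hsub (fun l _ _ => by positivity)
      _ ≤ ∑ l ∈ (Icc 7 N).filter Nat.Prime, (1 : ℝ) / l + ∑ l ∈ ({2, 3, 5} : Finset ℕ), (1 : ℝ) / l := by
          rw [← sum_union_inter]
          have : 0 ≤ ∑ l ∈ (Icc 7 N).filter Nat.Prime ∩ {2, 3, 5}, (1 : ℝ) / l :=
            sum_nonneg (fun l _ => by positivity)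
          linarith
      _ ≤ _ := by
          have : ∑ l ∈ ({2, 3, 5} : Finset ℕ), (1 : ℝ) / l ≤ 2 := by
            rw [sum_insert (by decide), sum_insert (by decide), sum_singleton]
            norm_num
          linarith
  have a2 : ∑ l ∈ (Icc 1 ⌊Real.exp (lz A x)⌋₊).filter (fun l => l.Prime ∧ l % 3 = 1), (1 : ℝ) / l -
      ∑ l ∈ (Icc 1 ⌊Real.log x⌋₊).filter (fun l => l.Prime ∧ l % 3 = 1), (1 : ℝ) / l ≤
      ∑ l ∈ (Icc 7 N).filter Nat.Prime, if In A x l then (1 : ℝ) / l else 0 := by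
    rw [← sum_filter, filter_filter, sub_le_iff_le_add]
    have hsub : (Icc 1 ⌊Real.exp (lz A x)⌋₊).filter (fun l => l.Prime ∧ l % 3 = 1) ⊆
        (Icc 7 N).filter (fun l => l.Prime ∧ In A x l) ∪
          (Icc 1 ⌊Real.log x⌋₊).filter (fun l => l.Prime ∧ l % 3 = 1) := by
      intro l hl
      rw [mem_filter, mem_Icc] at hl
      obtain ⟨⟨h1, h2⟩, h3, h4⟩ := hl
      rw [mem_union]
      rcases Nat.lt_or_ge ⌊Real.log x⌋₊ l with h5 | h5
      · left
        rw [mem_filter, mem_Icc]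
        have hl0 : (0 : ℝ) < l := by exact_mod_cast h3.pos
        refine ⟨⟨?_, h2.trans hN⟩, h3, h4, (Nat.floor_lt (Real.log_natCast_nonneg x)).1 h5, ?_⟩
        · by_contra hlt
          push Not at hlt
          interval_cases l <;> first | omega | exact absurd h3 (by norm_num)
        · rw [Real.log_le_iff_le_exp hl0]
          exact (Nat.le_floor_iff (Real.exp_pos _).le).1 h2
      · right
        rw [mem_filter, mem_Icc]
        exact ⟨⟨h1, h5⟩, h3, h4⟩
    refine (sum_le_sum_of_subset_of_nonneg hsub (fun l _ _ => by positivity)).trans ?_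
    rw [← sum_union_inter]
    have : 0 ≤ ∑ l ∈ (Icc 7 N).filter (fun l => l.Prime ∧ In A x l) ∩
        (Icc 1 ⌊Real.log x⌋₊).filter (fun l => l.Prime ∧ l % 3 = 1), (1 : ℝ) / l :=
      sum_nonneg (fun l _ => by positivity)
    linarith
  have a3 : ∑ l ∈ (Icc 7 N).filter Nat.Prime, (1 : ℝ) / l +
      2 * ∑ l ∈ (Icc 7 N).filter Nat.Prime, (if In A x l then (1 : ℝ) / l else 0) ≤
      ∑ l ∈ (Icc 7 N).filter Nat.Prime, ((SS A x l).card : ℝ) / l := by
    rw [mul_sum, ← sum_add_distrib]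
    refine sum_le_sum (fun l hl => ?_)
    have hp := (mem_filter.1 hl).2
    have hl0 : (0 : ℝ) < l := by exact_mod_cast hp.pos
    split_ifs with h
    · have h1 : (3 : ℝ) ≤ (SS A x l).card := by exact_mod_cast SS_three A x l hp h
      have h2 : (3 : ℝ) / l ≤ ((SS A x l).card : ℝ) / l := div_le_div_of_nonneg_right h1 hl0.le
      refine le_trans (le_of_eq ?_) h2
      ring
    · have h1 : (1 : ℝ) ≤ (SS A x l).card := by exact_mod_cast SS_one A x l hp
      have h2 : (1 : ℝ) / l ≤ ((SS A x l).card : ℝ) / l := div_le_div_of_nonneg_right h1 hl0.le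
      linarith
  linarith

theorem hPRX (hS : StSVU) (hM : StMT) (h3 : StMR3) (h1 : StMR1) : StPRX := by
  classical
  intro A hA
  obtain ⟨C, δ, hC, hδ, hδ4, hS⟩ := hS
  obtain ⟨C1, hC1, hM⟩ := hM
  obtain ⟨C3, hC3, h3⟩ := h3
  obtain ⟨C5, hC5, h1⟩ := h1
  set D : ℝ := Real.exp (C1 + 2 * C3 + 2 * C5 + 2) / δ with hD
  have hDpos : 0 < D := by rw [hD]; positivity
  refine ⟨C * D, by positivity, ?_⟩
  have t1 := Real.tendsto_log_atTop
  have t2 : Tendsto (fun x : ℝ => Real.log (Real.log x)) atTop atTop := t1.comp t1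
  have t3 : Tendsto (fun x : ℝ => Real.log (Real.log (Real.log x))) atTop atTop := t1.comp t2
  have lo : ∀ c : ℝ, 0 < c → ∀ᶠ u : ℝ in atTop, Real.log u ≤ c * u := by
    intro c hc
    filter_upwards [Real.isLittleO_log_id_atTop.bound hc, eventually_ge_atTop 1] with u hu hu1
    simp only [id] at hu
    rw [Real.norm_of_nonneg (Real.log_nonneg hu1), Real.norm_of_nonneg (by linarith)] at hu
    exact hu
  have ev := (((t1.eventually_ge_atTop 3).and (t3.eventually_ge_atTop 1)).and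
    ((t1.eventually (lo (1 / (2 * A)) (by positivity))).and (t2.eventually (lo δ hδ)))).and
      (eventually_ge_atTop (16 : ℝ))
  obtain ⟨x₀, hx₀⟩ := eventually_atTop.1 (tendsto_natCast_atTop_atTop.eventually ev)
  refine ⟨x₀, fun x K hx hxK hKx => ?_⟩
  obtain ⟨⟨⟨hl3, hlll⟩, hlA, hlδ⟩, h16⟩ := hx₀ x hx
  have hx0 : (0 : ℝ) < x := by linarith
  have hlx : 0 < Real.log x := by linarith
  have hll : 0 < Real.log (Real.log x) := Real.log_pos (by linarith)
  have hxK' : (x : ℝ) ≤ K := by exact_mod_cast hxK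
  have hKx' : (K : ℝ) ≤ (x : ℝ) ^ 2 := by exact_mod_cast hKx
  have hK0 : (0 : ℝ) < K := by linarith
  have hA0 : 0 < A := by linarith
  have hlK : Real.log x ≤ Real.log K := Real.log_le_log hx0 hxK'
  -- the size of `lz`
  have hlz2 : 2 ≤ lz A x := by
    unfold lz
    rw [le_div_iff₀ (by positivity)]
    have e1 : 2 * (A * Real.log (Real.log x)) ≤ Real.log x := by
      calc 2 * (A * Real.log (Real.log x)) ≤ 2 * (A * (1 / (2 * A) * Real.log x)) := by gcongr
        _ = Real.log x := by field_simp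
    calc 2 * (A * Real.log (Real.log x)) ≤ Real.log x * 1 := by linarith
      _ ≤ Real.log x * Real.log (Real.log (Real.log x)) := by gcongr
  have hlzδ : lz A x ≤ δ * Real.log x := by
    unfold lz
    rw [div_le_iff₀ (by positivity)]
    calc Real.log x * Real.log (Real.log (Real.log x)) ≤ Real.log x * (δ * Real.log (Real.log x)) := by gcongr
      _ = 1 * (δ * Real.log x * Real.log (Real.log x)) := by ring
      _ ≤ A * (δ * Real.log x * Real.log (Real.log x)) := by gcongr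
      _ = δ * Real.log x * (A * Real.log (Real.log x)) := by ring
  have hez : (3 : ℝ) ≤ Real.exp (lz A x) := by
    have := Real.add_one_le_exp (lz A x)
    linarith
  have hKδ : Real.exp (lz A x) ≤ (K : ℝ) ^ δ := by
    rw [Real.rpow_def_of_pos hK0]
    apply Real.exp_le_exp.2
    have : δ * Real.log x ≤ δ * Real.log K := by gcongr
    linarith
  have hz : (3 : ℝ) ≤ (K : ℝ) ^ δ := hez.trans hKδ
  have hzx : 2 * (K : ℝ) ^ δ ≤ x := by
    have h1 : (K : ℝ) ^ δ ≤ (K : ℝ) ^ (1 / 4 : ℝ) :=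
      Real.rpow_le_rpow_of_exponent_le (by linarith) hδ4
    have h2 : (K : ℝ) ^ (1 / 4 : ℝ) ≤ ((x : ℝ) ^ (2 : ℝ)) ^ (1 / 4 : ℝ) :=
      Real.rpow_le_rpow hK0.le (by rw [Real.rpow_two]; exact hKx') (by norm_num)
    rw [← Real.rpow_mul hx0.le] at h2
    have h3 : (x : ℝ) ^ ((2 : ℝ) * (1 / 4 : ℝ)) = √(x : ℝ) := by
      rw [Real.sqrt_eq_rpow]
      norm_num
    rw [h3] at h2
    have h4 : (4 : ℝ) ≤ √(x : ℝ) := by
      rw [show (4 : ℝ) = √16 by
        rw [show (16 : ℝ) = 4 ^ 2 by norm_num, Real.sqrt_sq (by norm_num)]]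
      exact Real.sqrt_le_sqrt h16
    have h5 := Real.mul_self_sqrt hx0.le
    nlinarith
  have hK2 : 2 ≤ K := by
    have : (2 : ℝ) ≤ K := by linarith
    exact_mod_cast this
  have hsieve := hS K hK2 (SS A x) (fun l hl _ =>
    ⟨fun s hs => mem_range.1 (mem_filter.1 hs).1, SS_card_le A x l hl⟩)
  -- the inclusion
  set B := (Icc 1 K).filter (fun m : ℕ => ∀ l : ℕ, l.Prime → 7 ≤ l → (l : ℝ) ≤ (K : ℝ) ^ δ →
    m % l ∉ SS A x l) with hB
  have hsub : (Icc 1 K).filter (fun q => q.Prime ∧ x < 2 * q ∧ ∀ l : ℕ, l.Prime → In A x l →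
      ¬ l ∣ q ^ 2 + q + 1) ⊆ B := by
    intro p hp
    obtain ⟨hp1, hp2, hp3, hp4⟩ := mem_filter.1 hp
    refine mem_filter.2 ⟨hp1, fun l hl h7 hlz hmem => ?_⟩
    obtain ⟨-, h | ⟨hin, h⟩⟩ := mem_filter.1 hmem
    · have h1 : l ∣ p := Nat.dvd_of_mod_eq_zero h
      have h2 : l = p := (Nat.prime_dvd_prime_iff_eq hl hp2).1 h1
      rw [h2] at hlz
      have h5 : (x : ℝ) < 2 * p := by exact_mod_cast hp3
      linarith
    · have h1 : l ∣ p ^ 2 + p + 1 := by
        rw [dvd_iff] at h ⊢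
        rwa [ZMod.natCast_mod] at h
      exact hp4 l hl hin h1
  have hcard := card_le_card hsub
  have hcard' : ((((Icc 1 K).filter (fun q => q.Prime ∧ x < 2 * q ∧ ∀ l : ℕ, l.Prime → In A x l →
      ¬ l ∣ q ^ 2 + q + 1)).card : ℕ) : ℝ) ≤ B.card := by exact_mod_cast hcard
  refine hcard'.trans (hsieve.trans ?_)
  -- the exponential
  have hw : 0 < δ * Real.log x := by positivity
  have hlz : δ * Real.log x ≤ Real.log ((K : ℝ) ^ δ) := by
    rw [Real.log_rpow hK0]
    gcongr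
  have hll2 : Real.log (δ * Real.log x) ≤ Real.log (Real.log ((K : ℝ) ^ δ)) :=
    Real.log_le_log hw hlz
  have hsum := sum_ge A x ⌊(K : ℝ) ^ δ⌋₊ (Nat.floor_le_floor hKδ)
  have hm1 := (abs_le.1 (hM _ hz)).1
  have hm3 := (h3 _ hez).1
  have hm5 := h1 _ hl3
  rw [Real.log_exp] at hm3
  have hlz0 : 0 < lz A x := by linarith
  have hexp : Real.exp (-∑ l ∈ (Icc 7 ⌊(K : ℝ) ^ δ⌋₊).filter Nat.Prime, ((SS A x l).card : ℝ) / l) ≤
      D * (Real.log (Real.log x) / (Real.log x * lz A x)) := by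
    have h1 : -∑ l ∈ (Icc 7 ⌊(K : ℝ) ^ δ⌋₊).filter Nat.Prime, ((SS A x l).card : ℝ) / l ≤
        (C1 + 2 * C3 + 2 * C5 + 2) + (Real.log (Real.log (Real.log x)) +
          (-Real.log (δ * Real.log x) + -Real.log (lz A x))) := by linarith
    refine (Real.exp_le_exp.2 h1).trans (le_of_eq ?_)
    have e0 : ∀ a b c d : ℝ, Real.exp (a + (b + (-c + -d))) =
        Real.exp a * (Real.exp b * ((Real.exp c)⁻¹ * (Real.exp d)⁻¹)) := by
      intro a b c d
      rw [Real.exp_add, Real.exp_add, Real.exp_add, Real.exp_neg, Real.exp_neg]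
    rw [e0, Real.exp_log hll, Real.exp_log hw, Real.exp_log hlz0, hD]
    field_simp
  calc C * K * Real.exp (-∑ l ∈ (Icc 7 ⌊(K : ℝ) ^ δ⌋₊).filter Nat.Prime, ((SS A x l).card : ℝ) / l)
      ≤ C * K * (D * (Real.log (Real.log x) / (Real.log x * lz A x))) :=
        mul_le_mul_of_nonneg_left hexp (by positivity)
    _ = C * D * (K * Real.log (Real.log x) / (Real.log x * lz A x)) := by ring

end Pool.Agent.Helper45.LX
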